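import Pool.Agent.REV.StmtsP3
import Pool.Agent.Helper27_REV.RC3

/-!
# Row HSM of squad REV: `RA`, `RB` near the pole
-/

set_option autoImplicit false

namespace Pool.Agent.REV.H19

open Set MeasureTheory Filter
open scoped Topology

/-- a weighted integral of `f (r c)` is a Hoelder function of `c` -/
theorem hsm_aux (w : ℝ → ℝ) (hw : IntervalIntegrable w volume 0 1)
    (hw0 : ∀ r ∈ Icc (0 : ℝ) 1, 0 ≤ w r) (hw2 : ∫ r in (0 : ℝ)..1, w r ≤ 2)
    (γ L a : ℝ) (f : ℝ → ℝ) (hγ : 0 ≤ γ) (hL : 0 ≤ L) (ha1 : a ≤ 1)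
    (hf : ContinuousOn f (Icc 0 1))
    (hH : ∀ x ∈ Icc (0 : ℝ) a, ∀ z ∈ Icc (0 : ℝ) a, |f x - f z| ≤ L * |x ^ 2 - z ^ 2| ^ γ)
    (c c' : ℝ) (hc : c ∈ Icc (0 : ℝ) a) (hc' : c' ∈ Icc (0 : ℝ) a) :
    |(∫ r in (0 : ℝ)..1, w r * f (r * c)) - ∫ r in (0 : ℝ)..1, w r * f (r * c')| ≤
      2 * L * |c ^ 2 - c' ^ 2| ^ γ := by
  have hint : ∀ c : ℝ, c ∈ Icc (0 : ℝ) a →
      IntervalIntegrable (fun r => w r * f (r * c)) volume 0 1 := by
    intro c hc
    refine hw.mul_continuousOn ?_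
    rw [uIcc_of_le zero_le_one]
    refine hf.comp (by fun_prop) fun r hr => ?_
    exact ⟨mul_nonneg hr.1 hc.1, mul_le_one₀ hr.2 hc.1 (hc.2.trans ha1)⟩
  obtain ⟨D, hD⟩ : ∃ D, D = L * |c ^ 2 - c' ^ 2| ^ γ := ⟨_, rfl⟩
  have hD0 : 0 ≤ D := by rw [hD]; exact mul_nonneg hL (Real.rpow_nonneg (abs_nonneg _) _)
  rw [← intervalIntegral.integral_sub (hint c hc) (hint c' hc')]
  have h1 : |∫ r in (0 : ℝ)..1, (w r * f (r * c) - w r * f (r * c'))| ≤
      ∫ r in (0 : ℝ)..1, w r * D := by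
    rw [← Real.norm_eq_abs]
    refine intervalIntegral.norm_integral_le_of_norm_le zero_le_one ?_ (hw.mul_const D)
    refine Eventually.of_forall fun r hr => ?_
    have hr0 : 0 ≤ r := hr.1.le
    have hr1 : r ≤ 1 := hr.2
    rw [Real.norm_eq_abs, ← mul_sub, abs_mul, abs_of_nonneg (hw0 r ⟨hr0, hr1⟩)]
    refine mul_le_mul_of_nonneg_left ?_ (hw0 r ⟨hr0, hr1⟩)
    have m1 : r * c ∈ Icc (0 : ℝ) a :=
      ⟨mul_nonneg hr0 hc.1, (mul_le_of_le_one_left hc.1 hr1).trans hc.2⟩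
    have m2 : r * c' ∈ Icc (0 : ℝ) a :=
      ⟨mul_nonneg hr0 hc'.1, (mul_le_of_le_one_left hc'.1 hr1).trans hc'.2⟩
    refine (hH _ m1 _ m2).trans ?_
    rw [hD]
    refine mul_le_mul_of_nonneg_left (Real.rpow_le_rpow (abs_nonneg _) ?_ hγ) hL
    have e : (r * c) ^ 2 - (r * c') ^ 2 = r ^ 2 * (c ^ 2 - c' ^ 2) := by ring
    rw [e, abs_mul, abs_of_nonneg (sq_nonneg r)]
    refine mul_le_of_le_one_left (abs_nonneg _) (pow_le_one₀ hr0 hr1)
  refine h1.trans ?_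
  rw [intervalIntegral.integral_mul_const]
  calc (∫ r in (0 : ℝ)..1, w r) * D ≤ 2 * D := mul_le_mul_of_nonneg_right hw2 hD0
    _ = 2 * L * |c ^ 2 - c' ^ 2| ^ γ := by rw [hD]; ring

theorem kk_le_two : ∫ r in (0 : ℝ)..1, H27.kk r ≤ 2 := by
  have h1 : IntervalIntegrable (fun r : ℝ => (1 - r) ^ (-(1 / 2) : ℝ)) volume 0 1 := by
    have h := (intervalIntegral.intervalIntegrable_rpow' (a := (1 : ℝ)) (b := 0)
      (r := (-(1 / 2) : ℝ)) (by norm_num)).comp_sub_left 1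
    simpa using h
  have h2 : ∫ r in (0 : ℝ)..1, (1 - r) ^ (-(1 / 2) : ℝ) = 2 := by
    rw [intervalIntegral.integral_comp_sub_left (fun x : ℝ => x ^ (-(1 / 2) : ℝ)) 1]
    rw [integral_rpow (Or.inl (by norm_num))]
    norm_num
  rw [← h2]
  refine intervalIntegral.integral_mono_on_of_le_Ioo zero_le_one H27.kk_int h1 fun r hr => ?_
  have hr0 := hr.1
  have hr1 := hr.2
  unfold H27.kk
  have h3 : (1 - r ^ 2) ^ (-(1 / 2) : ℝ) ≤ (1 - r) ^ (-(1 / 2) : ℝ) :=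
    Real.rpow_le_rpow_of_nonpos (by linarith) (by nlinarith) (by norm_num)
  have h4 : r ^ 2 ≤ 1 := by nlinarith
  have h5 : 0 ≤ (1 - r ^ 2) ^ (-(1 / 2) : ℝ) := Real.rpow_nonneg (by nlinarith) _
  nlinarith

theorem hsm : HsmStmt := by
  intro γ L a f hγ hL ha ha1 hf hH c hc c' hc'
  constructor
  · have e : ∀ c : ℝ, RA 3 f c = ∫ r in (0 : ℝ)..1, (1 - r ^ 2) ^ ((1 / 2) : ℝ) * f (r * c) := by
      intro c
      unfold RA
      norm_num
    rw [e, e]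
    have hcont : Continuous fun r : ℝ => (1 - r ^ 2) ^ ((1 / 2) : ℝ) :=
      (by fun_prop : Continuous fun r : ℝ => 1 - r ^ 2).rpow_const fun _ => Or.inr (by norm_num)
    have h1 : ∫ r in (0 : ℝ)..1, (1 - r ^ 2) ^ ((1 / 2) : ℝ) ≤ 2 := by
      have h2 : ∫ r in (0 : ℝ)..1, (1 - r ^ 2) ^ ((1 / 2) : ℝ) ≤ ∫ r in (0 : ℝ)..1, (1 : ℝ) := by
        refine intervalIntegral.integral_mono_on zero_le_one (hcont.intervalIntegrable _ _)
          intervalIntegrable_const fun r hr => ?_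
        exact Real.rpow_le_one (by nlinarith [hr.1, hr.2]) (by nlinarith [hr.1, hr.2])
          (by norm_num)
      rw [intervalIntegral.integral_const, sub_zero, one_smul] at h2
      linarith
    exact hsm_aux _ (hcont.intervalIntegrable _ _)
      (fun r hr => Real.rpow_nonneg (by nlinarith [hr.1, hr.2]) _) h1 γ L a f hγ hL ha1 hf hH c c'
      hc hc'
  · have e : ∀ c : ℝ, RB 3 f c = ∫ r in (0 : ℝ)..1, H27.kk r * f (r * c) := by
      intro c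
      unfold RB H27.kk
      norm_num
    rw [e, e]
    exact hsm_aux _ H27.kk_int (fun r hr => H27.kk_nonneg r hr.1 hr.2) kk_le_two γ L a f hγ hL ha1
      hf hH c c' hc hc'

end Pool.Agent.REV.H19
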