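import Pool.Agent.REV.StmtsP3
import Pool.Agent.Helper27_REV.RC3
import Pool.Agent.Helper19_REV.HSM

/-!
# Row HRB of squad REV: Hoelder estimate of `RB` away from the pole
-/

set_option autoImplicit false

namespace Pool.Agent.REV.H19

open Set MeasureTheory Filter
open scoped Topology

/-- `√w f(√w)` -/
noncomputable def hh (f : ℝ → ℝ) (w : ℝ) : ℝ := Real.sqrt w * f (Real.sqrt w)

theorem hh_cont (f : ℝ → ℝ) (hf : ContinuousOn f (Icc 0 1)) : ContinuousOn (hh f) (Icc 0 1) := by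
  unfold hh
  refine Real.continuous_sqrt.continuousOn.mul (hf.comp Real.continuous_sqrt.continuousOn ?_)
  intro w hw
  exact ⟨Real.sqrt_nonneg _, by rw [← Real.sqrt_one]; exact Real.sqrt_le_sqrt hw.2⟩

theorem int_sub (X a b : ℝ) :
    IntervalIntegrable (fun w : ℝ => (X - w) ^ (-(1 / 2) : ℝ)) volume a b := by
  have h := (intervalIntegral.intervalIntegrable_rpow' (a := X - a) (b := X - b)
      (r := (-(1 / 2) : ℝ)) (by norm_num)).comp_sub_left X
  simpa using h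

theorem int_sub_mul (X : ℝ) (h : ℝ → ℝ) (a b : ℝ) (ha : 0 ≤ a) (hab : a ≤ b) (hb : b ≤ 1)
    (hh : ContinuousOn h (Icc 0 1)) :
    IntervalIntegrable (fun w : ℝ => (X - w) ^ (-(1 / 2) : ℝ) * h w) volume a b := by
  refine (int_sub X a b).mul_continuousOn (hh.mono ?_)
  rw [uIcc_of_le hab]
  exact Icc_subset_Icc ha hb

theorem val_sub (X : ℝ) (hX : 0 ≤ X) :
    ∫ w in (0 : ℝ)..X, (X - w) ^ (-(1 / 2) : ℝ) = 2 * Real.sqrt X := by
  rw [intervalIntegral.integral_comp_sub_left (fun x : ℝ => x ^ (-(1 / 2) : ℝ)) X,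
    integral_rpow (Or.inl (by norm_num)), Real.sqrt_eq_rpow]
  norm_num
  ring

theorem val_sub' (X X' : ℝ) (h : X ≤ X') :
    ∫ w in X..X', (X' - w) ^ (-(1 / 2) : ℝ) = 2 * Real.sqrt (X' - X) := by
  rw [intervalIntegral.integral_comp_sub_left (fun x : ℝ => x ^ (-(1 / 2) : ℝ)) X',
    integral_rpow (Or.inl (by norm_num)), Real.sqrt_eq_rpow]
  norm_num
  ring

/-- the substitution `w = r^2 X` -/
theorem rb_sub (f : ℝ → ℝ) (hf : ContinuousOn f (Icc 0 1)) (X : ℝ) (h0 : 0 < X) (h1 : X ≤ 1) :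
    X * RB 3 f (Real.sqrt X) =
      (1 / 2) * ∫ w in (0 : ℝ)..X, (X - w) ^ (-(1 / 2) : ℝ) * hh f w := by
  have hsX : 0 < Real.sqrt X := Real.sqrt_pos.2 h0
  have hsX1 : Real.sqrt X ≤ 1 := by rw [← Real.sqrt_one]; exact Real.sqrt_le_sqrt h1
  have e1 : ∀ r ∈ Icc (0 : ℝ) 1,
      ((fun w : ℝ => (X - w) ^ (-(1 / 2) : ℝ) * hh f w) ∘ fun r : ℝ => X * r ^ 2) r * (2 * X * r) =
        2 * X * (H27.kk r * f (r * Real.sqrt X)) := by
    intro r hr
    show (X - X * r ^ 2) ^ (-(1 / 2) : ℝ) * hh f (X * r ^ 2) * (2 * X * r) = _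
    have e2 : Real.sqrt (X * r ^ 2) = r * Real.sqrt X := by
      rw [Real.sqrt_mul h0.le, Real.sqrt_sq hr.1, mul_comm]
    have e3 : X - X * r ^ 2 = X * (1 - r ^ 2) := by ring
    have e4 : (X * (1 - r ^ 2)) ^ (-(1 / 2) : ℝ) =
        (Real.sqrt X)⁻¹ * (1 - r ^ 2) ^ (-(1 / 2) : ℝ) := by
      rw [Real.mul_rpow h0.le (by nlinarith [hr.1, hr.2]), Real.rpow_neg h0.le,
        Real.sqrt_eq_rpow]
    unfold hh H27.kk
    rw [e2, e3, e4]
    field_simp
  have hcont : ContinuousOn (hh f) (Icc 0 1) := hh_cont f hf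
  have hsubst := intervalIntegral.integral_comp_mul_deriv''' (a := (0 : ℝ)) (b := 1)
    (f := fun r : ℝ => X * r ^ 2) (f' := fun r : ℝ => 2 * X * r)
    (g := fun w : ℝ => (X - w) ^ (-(1 / 2) : ℝ) * hh f w)
    (by fun_prop)
    (fun x _ => by
      have h2 : HasDerivAt (fun r : ℝ => X * r ^ 2) (X * ((2 : ℕ) * x ^ (2 - 1))) x :=
        (hasDerivAt_pow 2 x).const_mul X
      have e : X * ((2 : ℕ) * x ^ (2 - 1)) = 2 * X * x := by norm_num; ring
      rw [e] at h2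
      exact h2.hasDerivWithinAt)
    (by
      rw [min_eq_left zero_le_one, max_eq_right zero_le_one]
      have hsub : (fun r : ℝ => X * r ^ 2) '' Ioo 0 1 ⊆ Ioo 0 X := by
        rintro _ ⟨r, hr, rfl⟩
        have hr2 : r ^ 2 < 1 := by nlinarith [hr.1, hr.2]
        have hr3 : 0 < r ^ 2 := pow_pos hr.1 2
        exact ⟨mul_pos h0 hr3, by nlinarith⟩
      refine ContinuousOn.mono ?_ hsub
      refine ContinuousOn.mul ?_ (hcont.mono fun w hw => ⟨hw.1.le, hw.2.le.trans h1⟩)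
      refine ContinuousOn.rpow_const (by fun_prop) fun w hw => Or.inl ?_
      exact (sub_pos.2 hw.2).ne')
    (by
      have hsub : (fun r : ℝ => X * r ^ 2) '' uIcc 0 1 ⊆ Icc 0 X := by
        rw [uIcc_of_le zero_le_one]
        rintro _ ⟨r, hr, rfl⟩
        have hr2 : r ^ 2 ≤ 1 := pow_le_one₀ hr.1 hr.2
        exact ⟨mul_nonneg h0.le (sq_nonneg r), mul_le_of_le_one_right h0.le hr2⟩
      refine IntegrableOn.mono_set ?_ hsub
      rw [integrableOn_Icc_iff_integrableOn_Ioc, ← intervalIntegrable_iff_integrableOn_Ioc_of_le h0.le]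
      exact int_sub_mul X _ 0 X le_rfl h0.le h1 hcont)
    (by
      rw [uIcc_of_le zero_le_one]
      refine IntegrableOn.congr_fun (f := fun r : ℝ => 2 * X * (H27.kk r * f (r * Real.sqrt X))) ?_
        (fun r hr => (e1 r hr).symm) measurableSet_Icc
      rw [integrableOn_Icc_iff_integrableOn_Ioc,
        ← intervalIntegrable_iff_integrableOn_Ioc_of_le zero_le_one]
      refine IntervalIntegrable.const_mul ?_ _
      refine H27.kk_int.mul_continuousOn ?_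
      rw [uIcc_of_le zero_le_one]
      refine hf.comp (by fun_prop) fun r hr => ?_
      exact ⟨mul_nonneg hr.1 hsX.le, mul_le_one₀ hr.2 hsX.le hsX1⟩)
  have e5 : X * (1 : ℝ) ^ 2 = X := by ring
  have e6 : X * (0 : ℝ) ^ 2 = 0 := by ring
  simp only [e5, e6] at hsubst
  rw [← hsubst]
  have e7 : ∫ r in (0 : ℝ)..1,
      ((fun w : ℝ => (X - w) ^ (-(1 / 2) : ℝ) * hh f w) ∘ fun r : ℝ => X * r ^ 2) r * (2 * X * r) =
      ∫ r in (0 : ℝ)..1, 2 * X * (H27.kk r * f (r * Real.sqrt X)) := by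
    refine intervalIntegral.integral_congr fun r hr => ?_
    rw [uIcc_of_le zero_le_one] at hr
    exact e1 r hr
  rw [e7, intervalIntegral.integral_const_mul]
  have e8 : RB 3 f (Real.sqrt X) = ∫ r in (0 : ℝ)..1, H27.kk r * f (r * Real.sqrt X) := by
    unfold RB H27.kk
    norm_num
  rw [e8]
  ring

theorem rb_le (f : ℝ → ℝ) (M : ℝ) (hM : ∀ t ∈ Icc (0 : ℝ) 1, |f t| ≤ M) (c : ℝ)
    (h0 : 0 ≤ c) (h1 : c ≤ 1) : |RB 3 f c| ≤ 2 * M := by
  have hM0 : 0 ≤ M := (abs_nonneg _).trans (hM 0 ⟨le_rfl, zero_le_one⟩)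
  have e8 : RB 3 f c = ∫ r in (0 : ℝ)..1, H27.kk r * f (r * c) := by
    unfold RB H27.kk
    norm_num
  rw [e8, ← Real.norm_eq_abs]
  refine (intervalIntegral.norm_integral_le_of_norm_le zero_le_one
    (g := fun r => H27.kk r * M) ?_ (H27.kk_int.mul_const M)).trans ?_
  · refine Eventually.of_forall fun r hr => ?_
    rw [Real.norm_eq_abs, abs_mul, abs_of_nonneg (H27.kk_nonneg r hr.1.le hr.2)]
    refine mul_le_mul_of_nonneg_left (hM _ ⟨mul_nonneg hr.1.le h0, mul_le_one₀ hr.2 h0 h1⟩)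
      (H27.kk_nonneg r hr.1.le hr.2)
  · rw [intervalIntegral.integral_mul_const]
    exact mul_le_mul_of_nonneg_right kk_le_two hM0

/-- Hoelder bound of `h` near `X ≥ 1/2` -/
theorem hh_hol (α M L : ℝ) (f : ℝ → ℝ) (hα0 : 0 ≤ α) (hα1 : α ≤ 1) (hL : 0 ≤ L)
    (hM : ∀ t ∈ Icc (0 : ℝ) 1, |f t| ≤ M)
    (hH : ∀ x ∈ Icc (0 : ℝ) 1, ∀ z ∈ Icc (0 : ℝ) 1, |f x - f z| ≤ L * |x ^ 2 - z ^ 2| ^ α)
    (X : ℝ) (hX : 1 / 2 ≤ X) (hX1 : X ≤ 1) (w : ℝ) (hw0 : 0 ≤ w) (hw1 : w ≤ 1) :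
    |hh f w - hh f X| ≤ (L + 2 * M) * |w - X| ^ α := by
  have hM0 : 0 ≤ M := (abs_nonneg _).trans (hM 0 ⟨le_rfl, zero_le_one⟩)
  have hs : ∀ y : ℝ, 0 ≤ y → y ≤ 1 → Real.sqrt y ∈ Icc (0 : ℝ) 1 := fun y _ h1 =>
    ⟨Real.sqrt_nonneg _, by rw [← Real.sqrt_one]; exact Real.sqrt_le_sqrt h1⟩
  have hX0 : 0 ≤ X := by linarith
  have h1 := hH _ (hs w hw0 hw1) _ (hs X hX0 hX1)
  rw [Real.sq_sqrt hw0, Real.sq_sqrt hX0] at h1
  have h2 : hh f w - hh f X = Real.sqrt w * (f (Real.sqrt w) - f (Real.sqrt X)) +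
      (Real.sqrt w - Real.sqrt X) * f (Real.sqrt X) := by
    unfold hh
    ring
  have h3 : |w - X| ≤ 1 := by rw [abs_le]; constructor <;> linarith
  have h4 : |w - X| ≤ |w - X| ^ α := by
    calc |w - X| = |w - X| ^ (1 : ℝ) := (Real.rpow_one _).symm
      _ ≤ |w - X| ^ α := by
        rcases (abs_nonneg (w - X)).eq_or_lt with h | h
        · rw [← h, Real.zero_rpow one_ne_zero]
          exact Real.rpow_nonneg le_rfl _
        · exact Real.rpow_le_rpow_of_exponent_ge h h3 hα1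
  have h5 : (1 : ℝ) / 2 ≤ Real.sqrt X := by
    refine Real.le_sqrt_of_sq_le ?_
    norm_num
    linarith
  have h6 : |Real.sqrt w - Real.sqrt X| ≤ 2 * |w - X| := by
    have e : w - X = (Real.sqrt w - Real.sqrt X) * (Real.sqrt w + Real.sqrt X) := by
      have e1 := Real.sq_sqrt hw0
      have e2 := Real.sq_sqrt hX0
      nlinarith
    have hsum : 1 / 2 ≤ Real.sqrt w + Real.sqrt X := by
      have := Real.sqrt_nonneg w
      linarith
    rw [e, abs_mul, abs_of_nonneg (by linarith : 0 ≤ Real.sqrt w + Real.sqrt X)]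
    have := abs_nonneg (Real.sqrt w - Real.sqrt X)
    nlinarith
  rw [h2]
  refine (abs_add_le _ _).trans ?_
  rw [abs_mul, abs_mul, abs_of_nonneg (Real.sqrt_nonneg w)]
  have h7 : Real.sqrt w * |f (Real.sqrt w) - f (Real.sqrt X)| ≤ L * |w - X| ^ α := by
    refine (mul_le_of_le_one_left (abs_nonneg _) (hs w hw0 hw1).2).trans h1
  have h8 : |Real.sqrt w - Real.sqrt X| * |f (Real.sqrt X)| ≤ 2 * |w - X| ^ α * M := by
    refine mul_le_mul (h6.trans (by linarith)) (hM _ (hs X hX0 hX1)) (abs_nonneg _) ?_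
    have := Real.rpow_nonneg (abs_nonneg (w - X)) α
    linarith
  nlinarith

theorem hrb_one (hke : HkeStmt) (α γ M L : ℝ) (f : ℝ → ℝ) (hex : Exq α γ)
    (hf : ContinuousOn f (Icc 0 1)) (hL : 0 ≤ L) (hM : ∀ t ∈ Icc (0 : ℝ) 1, |f t| ≤ M)
    (hH : ∀ x ∈ Icc (0 : ℝ) 1, ∀ z ∈ Icc (0 : ℝ) 1, |f x - f z| ≤ L * |x ^ 2 - z ^ 2| ^ α)
    (X X' : ℝ) (hX : 1 / 2 ≤ X) (hXX : X < X') (hX1 : X' ≤ 1) :
    |RB 3 f (Real.sqrt X) - RB 3 f (Real.sqrt X')| ≤ (6 * L + 18 * M) * (X' - X) ^ γ := by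
  have hM0 : 0 ≤ M := (abs_nonneg _).trans (hM 0 ⟨le_rfl, zero_le_one⟩)
  have hα0 : 0 ≤ α := by
    rcases hex with ⟨h, -⟩ | ⟨h, -⟩ | ⟨h, -⟩ <;> rw [h] <;> norm_num
  have hα1 : α ≤ 1 := by
    rcases hex with ⟨h, -⟩ | ⟨h, -⟩ | ⟨h, -⟩ <;> rw [h] <;> norm_num
  have hγ1 : γ ≤ 1 := by
    rcases hex with ⟨-, h⟩ | ⟨-, h⟩ | ⟨-, h⟩ <;> rw [h] <;> norm_num
  have hαγ : γ ≤ α + 1 / 2 := by
    rcases hex with ⟨h, h'⟩ | ⟨h, h'⟩ | ⟨h, h'⟩ <;> rw [h, h'] <;> norm_num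
  have hX0 : 0 < X := by linarith
  have hX'0 : 0 < X' := by linarith
  have hXle : X ≤ 1 := by linarith
  obtain ⟨δ, hδ⟩ : ∃ δ, δ = X' - X := ⟨_, rfl⟩
  have hδ0 : 0 < δ := by rw [hδ]; linarith
  have hδ1 : δ ≤ 1 := by rw [hδ]; linarith
  rw [← hδ]
  obtain ⟨D, hD⟩ : ∃ D, D = δ ^ γ := ⟨_, rfl⟩
  have hD0 : 0 ≤ D := by rw [hD]; exact Real.rpow_nonneg hδ0.le _
  have hδD : δ ≤ D := by
    rw [hD]
    calc δ = δ ^ (1 : ℝ) := (Real.rpow_one _).symm
      _ ≤ δ ^ γ := Real.rpow_le_rpow_of_exponent_ge hδ0 hδ1 hγ1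
  obtain ⟨B, hB⟩ : ∃ B, B = L + 2 * M := ⟨_, rfl⟩
  have hB0 : 0 ≤ B := by rw [hB]; positivity
  have hcont := hh_cont f hf
  have hhol := hh_hol α M L f hα0 hα1 hL hM hH X hX hXle
  rw [← hB] at hhol
  -- the three integrals
  obtain ⟨I1, hI1⟩ : ∃ I1, I1 = ∫ w in (0 : ℝ)..X,
      ((X' - w) ^ (-(1 / 2) : ℝ) - (X - w) ^ (-(1 / 2) : ℝ)) * (hh f w - hh f X) := ⟨_, rfl⟩
  obtain ⟨I2, hI2⟩ : ∃ I2, I2 = ∫ w in X..X', (X' - w) ^ (-(1 / 2) : ℝ) * (hh f w - hh f X) :=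
    ⟨_, rfl⟩
  have hcc : ContinuousOn (fun w => hh f w - hh f X) (Icc 0 1) := hcont.sub continuousOn_const
  have hdec : 2 * (X' * RB 3 f (Real.sqrt X') - X * RB 3 f (Real.sqrt X)) =
      I1 + I2 + hh f X * (2 * Real.sqrt X' - 2 * Real.sqrt X) := by
    rw [rb_sub f hf X hX0 hXle, rb_sub f hf X' hX'0 hX1]
    have i1 := int_sub_mul X' (hh f) 0 X le_rfl hX0.le hXle hcont
    have i2 := int_sub_mul X' (hh f) X X' hX0.le hXX.le hX1 hcont
    have j1 := int_sub_mul X' (fun w => hh f w - hh f X) 0 X le_rfl hX0.le hXle hcc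
    have j2 := int_sub_mul X (fun w => hh f w - hh f X) 0 X le_rfl hX0.le hXle hcc
    have a1 : ∫ w in (0 : ℝ)..X', (X' - w) ^ (-(1 / 2) : ℝ) * hh f w =
        (∫ w in (0 : ℝ)..X', (X' - w) ^ (-(1 / 2) : ℝ) * (hh f w - hh f X)) +
          hh f X * (2 * Real.sqrt X') := by
      rw [← val_sub X' hX'0.le, ← intervalIntegral.integral_const_mul,
        ← intervalIntegral.integral_add
          (int_sub_mul X' (fun w => hh f w - hh f X) 0 X' le_rfl hX'0.le hX1 hcc)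
          ((int_sub X' 0 X').const_mul _)]
      refine intervalIntegral.integral_congr fun w _ => ?_
      ring
    have a2 : ∫ w in (0 : ℝ)..X, (X - w) ^ (-(1 / 2) : ℝ) * hh f w =
        (∫ w in (0 : ℝ)..X, (X - w) ^ (-(1 / 2) : ℝ) * (hh f w - hh f X)) +
          hh f X * (2 * Real.sqrt X) := by
      rw [← val_sub X hX0.le, ← intervalIntegral.integral_const_mul,
        ← intervalIntegral.integral_add j2 ((int_sub X 0 X).const_mul _)]
      refine intervalIntegral.integral_congr fun w _ => ?_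
      ring
    have a3 : ∫ w in (0 : ℝ)..X', (X' - w) ^ (-(1 / 2) : ℝ) * (hh f w - hh f X) =
        (∫ w in (0 : ℝ)..X, (X' - w) ^ (-(1 / 2) : ℝ) * (hh f w - hh f X)) + I2 := by
      rw [hI2]
      exact (intervalIntegral.integral_add_adjacent_intervals j1
        (int_sub_mul X' (fun w => hh f w - hh f X) X X' hX0.le hXX.le hX1 hcc)).symm
    have a4 : I1 = (∫ w in (0 : ℝ)..X, (X' - w) ^ (-(1 / 2) : ℝ) * (hh f w - hh f X)) -
        ∫ w in (0 : ℝ)..X, (X - w) ^ (-(1 / 2) : ℝ) * (hh f w - hh f X) := by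
      rw [hI1, ← intervalIntegral.integral_sub j1 j2]
      refine intervalIntegral.integral_congr fun w _ => ?_
      ring
    rw [a1, a2, a3, a4]
    ring
  -- first integral
  have hk := hke α γ hex X δ hX0 hXle hδ0
  have b1 : |I1| ≤ 4 * B * D := by
    have e1 : ∫ w in (0 : ℝ)..X, B * (((X - w) ^ (-(1 / 2) : ℝ) - (X - w + δ) ^ (-(1 / 2) : ℝ)) *
        (X - w) ^ α) = B * ∫ u in (0 : ℝ)..X,
          (u ^ (-(1 / 2) : ℝ) - (u + δ) ^ (-(1 / 2) : ℝ)) * u ^ α := by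
      rw [intervalIntegral.integral_const_mul]
      congr 1
      rw [intervalIntegral.integral_comp_sub_left
        (fun u : ℝ => (u ^ (-(1 / 2) : ℝ) - (u + δ) ^ (-(1 / 2) : ℝ)) * u ^ α) X, sub_self, sub_zero]
    have e2 : IntervalIntegrable (fun w : ℝ => B * (((X - w) ^ (-(1 / 2) : ℝ) -
        (X - w + δ) ^ (-(1 / 2) : ℝ)) * (X - w) ^ α)) volume 0 X := by
      have h := hk.1.comp_sub_left X
      rw [sub_zero, sub_self] at h
      exact (h.symm).const_mul B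
    rw [hI1, ← Real.norm_eq_abs]
    refine (intervalIntegral.norm_integral_le_of_norm_le hX0.le ?_ e2).trans ?_
    · have hne : ∀ᵐ w : ℝ ∂volume, w ≠ X := Measure.ae_ne volume X
      filter_upwards [hne] with w hw hwm
      have hw1 : w < X := lt_of_le_of_ne hwm.2 hw
      have hw0 : 0 < w := hwm.1
      have e3 : X - w + δ = X' - w := by rw [hδ]; ring
      rw [Real.norm_eq_abs, abs_mul, e3]
      have h3 : (X' - w) ^ (-(1 / 2) : ℝ) ≤ (X - w) ^ (-(1 / 2) : ℝ) :=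
        Real.rpow_le_rpow_of_nonpos (by linarith) (by linarith) (by norm_num)
      rw [abs_of_nonpos (by linarith)]
      have h4 := hhol w hw0.le (by linarith)
      rw [abs_of_nonpos (by linarith : w - X ≤ 0)] at h4
      have e5 : -(w - X) = X - w := by ring
      rw [e5] at h4
      have h6 : 0 ≤ (X - w) ^ (-(1 / 2) : ℝ) - (X' - w) ^ (-(1 / 2) : ℝ) := by linarith
      calc -((X' - w) ^ (-(1 / 2) : ℝ) - (X - w) ^ (-(1 / 2) : ℝ)) * |hh f w - hh f X|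
          = ((X - w) ^ (-(1 / 2) : ℝ) - (X' - w) ^ (-(1 / 2) : ℝ)) * |hh f w - hh f X| := by ring
        _ ≤ ((X - w) ^ (-(1 / 2) : ℝ) - (X' - w) ^ (-(1 / 2) : ℝ)) * (B * (X - w) ^ α) :=
            mul_le_mul_of_nonneg_left h4 h6
        _ = _ := by ring
    · rw [e1]
      calc B * _ ≤ B * (4 * δ ^ γ) := mul_le_mul_of_nonneg_left hk.2 hB0
        _ = 4 * B * D := by rw [hD]; ring
  -- second integral
  have b2 : |I2| ≤ 2 * B * D := by
    have e2 : IntervalIntegrable (fun w : ℝ => (X' - w) ^ (-(1 / 2) : ℝ) * (B * δ ^ α)) volume X X' :=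
      (int_sub X' X X').mul_const _
    rw [hI2, ← Real.norm_eq_abs]
    refine (intervalIntegral.norm_integral_le_of_norm_le hXX.le ?_ e2).trans ?_
    · refine Eventually.of_forall fun w hwm => ?_
      have hw0 : X < w := hwm.1
      have hw1 : w ≤ X' := hwm.2
      have h3 : 0 ≤ (X' - w) ^ (-(1 / 2) : ℝ) := Real.rpow_nonneg (by linarith) _
      rw [Real.norm_eq_abs, abs_mul, abs_of_nonneg h3]
      refine mul_le_mul_of_nonneg_left ((hhol w (by linarith) (by linarith)).trans ?_) h3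
      refine mul_le_mul_of_nonneg_left (Real.rpow_le_rpow (abs_nonneg _) ?_ hα0) hB0
      rw [abs_of_nonneg (by linarith : 0 ≤ w - X), hδ]
      linarith
    · rw [intervalIntegral.integral_mul_const, val_sub' X X' hXX.le, ← hδ, Real.sqrt_eq_rpow]
      have h4 : δ ^ ((1 : ℝ) / 2) * δ ^ α ≤ D := by
        rw [← Real.rpow_add hδ0, hD]
        exact Real.rpow_le_rpow_of_exponent_ge hδ0 hδ1 (by linarith)
      calc 2 * δ ^ ((1 : ℝ) / 2) * (B * δ ^ α) = 2 * B * (δ ^ ((1 : ℝ) / 2) * δ ^ α) := by ring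
        _ ≤ 2 * B * D := mul_le_mul_of_nonneg_left h4 (by positivity)
  -- third term
  have hs : ∀ y : ℝ, 0 ≤ y → y ≤ 1 → Real.sqrt y ∈ Icc (0 : ℝ) 1 := fun y _ h1 =>
    ⟨Real.sqrt_nonneg _, by rw [← Real.sqrt_one]; exact Real.sqrt_le_sqrt h1⟩
  have b3 : |hh f X * (2 * Real.sqrt X' - 2 * Real.sqrt X)| ≤ 2 * M * D := by
    have h1 : |hh f X| ≤ M := by
      unfold hh
      rw [abs_mul, abs_of_nonneg (Real.sqrt_nonneg X)]
      exact (mul_le_of_le_one_left (abs_nonneg _) (hs X hX0.le hXle).2).trans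
        (hM _ (hs X hX0.le hXle))
    have h2 : |2 * Real.sqrt X' - 2 * Real.sqrt X| ≤ 2 * D := by
      have h5 : (1 : ℝ) / 2 ≤ Real.sqrt X := by
        refine Real.le_sqrt_of_sq_le ?_
        norm_num
        linarith
      have h6 : (1 : ℝ) / 2 ≤ Real.sqrt X' := by
        refine Real.le_sqrt_of_sq_le ?_
        norm_num
        linarith
      have h7 : Real.sqrt X ≤ Real.sqrt X' := Real.sqrt_le_sqrt hXX.le
      have e : δ = (Real.sqrt X' - Real.sqrt X) * (Real.sqrt X' + Real.sqrt X) := by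
        have e1 := Real.sq_sqrt hX0.le
        have e2 := Real.sq_sqrt hX'0.le
        rw [hδ]
        nlinarith
      rw [abs_of_nonneg (by linarith)]
      have h8 : Real.sqrt X' - Real.sqrt X ≤ δ := by nlinarith
      linarith
    rw [abs_mul]
    calc |hh f X| * |2 * Real.sqrt X' - 2 * Real.sqrt X| ≤ M * (2 * D) :=
          mul_le_mul h1 h2 (abs_nonneg _) hM0
      _ = 2 * M * D := by ring
  have hkey : |X' * RB 3 f (Real.sqrt X') - X * RB 3 f (Real.sqrt X)| ≤ (3 * B + M) * D := by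
    have h1 : |2 * (X' * RB 3 f (Real.sqrt X') - X * RB 3 f (Real.sqrt X))| ≤
        4 * B * D + 2 * B * D + 2 * M * D := by
      rw [hdec]
      exact (abs_add_le _ _).trans (add_le_add ((abs_add_le _ _).trans (add_le_add b1 b2)) b3)
    rw [abs_mul, abs_of_pos (by norm_num : (0 : ℝ) < 2)] at h1
    nlinarith
  have hRB := rb_le f M hM (Real.sqrt X) (hs X hX0.le hXle).1 (hs X hX0.le hXle).2
  have hfin : RB 3 f (Real.sqrt X) - RB 3 f (Real.sqrt X') =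
      -(X'⁻¹ * (X' * RB 3 f (Real.sqrt X') - X * RB 3 f (Real.sqrt X))) +
        X'⁻¹ * (δ * RB 3 f (Real.sqrt X)) := by
    rw [hδ]
    field_simp
    ring
  rw [hfin]
  refine (abs_add_le _ _).trans ?_
  rw [abs_neg, abs_mul, abs_mul, abs_mul, abs_of_pos (inv_pos.2 hX'0), abs_of_pos hδ0]
  have hinv : X'⁻¹ ≤ 2 := by
    rw [inv_le_comm₀ hX'0 (by norm_num)]
    linarith
  have hinv0 : 0 ≤ X'⁻¹ := (inv_pos.2 hX'0).le
  have c1 : X'⁻¹ * |X' * RB 3 f (Real.sqrt X') - X * RB 3 f (Real.sqrt X)| ≤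
      2 * ((3 * B + M) * D) := mul_le_mul hinv hkey (abs_nonneg _) (by norm_num)
  have c2 : X'⁻¹ * (δ * |RB 3 f (Real.sqrt X)|) ≤ 2 * (D * (2 * M)) :=
    mul_le_mul hinv (mul_le_mul hδD hRB (abs_nonneg _) hD0) (by positivity) (by norm_num)
  rw [← hD]
  refine (add_le_add c1 c2).trans (le_of_eq ?_)
  rw [hB]
  ring

theorem hrb (hke : HkeStmt) : HrbStmt := by
  intro α γ M L f hex hf hL hM hH
  have hM0 : 0 ≤ M := (abs_nonneg _).trans (hM 0 ⟨le_rfl, zero_le_one⟩)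
  refine ⟨6 * L + 18 * M, by positivity, ?_⟩
  have key : ∀ c c' : ℝ, 0 ≤ c → 0 ≤ c' → 1 / 2 ≤ c ^ 2 → 1 / 2 ≤ c' ^ 2 → c ≤ 1 → c' ≤ 1 →
      c < c' → |RB 3 f c - RB 3 f c'| ≤ (6 * L + 18 * M) * |c ^ 2 - c' ^ 2| ^ γ := by
    intro c c' h0 h0' h2 h2' h1 h1' hlt
    have h3 : c ^ 2 < c' ^ 2 := by nlinarith
    have h4 := hrb_one hke α γ M L f hex hf hL hM hH (c ^ 2) (c' ^ 2) h2 h3
      (pow_le_one₀ h0' h1')
    rw [Real.sqrt_sq h0, Real.sqrt_sq h0'] at h4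
    rw [abs_of_neg (sub_neg.2 h3), neg_sub]
    exact h4
  intro c c' h0 h0' h2 h2' h1 h1'
  rcases lt_trichotomy c c' with h | h | h
  · exact key c c' h0 h0' h2 h2' h1 h1' h
  · rw [h, sub_self, sub_self, abs_zero]
    exact mul_nonneg (by positivity) (Real.rpow_nonneg le_rfl _)
  · have := key c' c h0' h0 h2' h2 h1' h1 h
    rw [abs_sub_comm, abs_sub_comm (c ^ 2)]
    exact this

end Pool.Agent.REV.H19
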