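import Pool.Agent.REV.StmtsP3

/-!
# Row PDL of squad REV: from one infinitesimal step to `V k' ≤ (k'/k)^m V k`
-/

set_option autoImplicit false

namespace Pool.Agent.REV.H19

open Set MeasureTheory Filter
open scoped Topology

theorem pdl (pdn : PdnStmt) (pin : PinStmt) : PdlStmt := by
  intro M q U hq hU hS k k' hk hkk'
  obtain ⟨m, hm⟩ : ∃ m, m = q / 2 - q / (4 * (1 + q)) := ⟨_, rfl⟩
  have hm0 : 0 ≤ m := by
    have e : q / 2 - q / (4 * (1 + q)) = q * (1 + 2 * q) / (4 * (1 + q)) := by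
      field_simp
      ring
    rw [hm, e]
    positivity
  have hV : 0 < vV U k := (pin M U hU k hk.le).2.2.1
  have hstep := pdn M q U hq hU hS
  rw [← hm] at hstep
  rw [← hm]
  obtain ⟨Λ, hΛ⟩ : ∃ Λ, Λ = Real.log (k' / k) := ⟨_, rfl⟩
  have hkp : 0 < k' := lt_of_lt_of_le hk hkk'
  have hr : 0 < k' / k := div_pos hkp hk
  have hΛ0 : 0 ≤ Λ := by
    rw [hΛ]
    exact Real.log_nonneg ((one_le_div hk).2 hkk')
  rw [Real.rpow_def_of_pos hr, ← hΛ]
  rcases hΛ0.eq_or_lt with h0 | hpos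
  · have h1 : Real.log (k' / k) = 0 := by rw [← hΛ, ← h0]
    have h2 : k' / k = 1 := by
      have := Real.exp_log hr
      rw [h1, Real.exp_zero] at this
      exact this.symm
    have h3 : k' = k := by
      rw [div_eq_one_iff_eq hk.ne'] at h2
      exact h2
    rw [← h0, h3, zero_mul, Real.exp_zero, one_mul]
  obtain ⟨K, hK⟩ : ∃ K, K = Λ ^ 2 * (m + 4 * (q * (1 + q))) := ⟨_, rfl⟩
  have hmain : ∀ᶠ N : ℕ in atTop, vV U k' ≤ Real.exp (m * Λ + K / N) * vV U k := by
    have ev1 : ∀ᶠ N : ℕ in atTop, 2 * Λ * (1 + q) ≤ N :=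
      tendsto_natCast_atTop_atTop.eventually_ge_atTop _
    have ev2 : ∀ᶠ N : ℕ in atTop, Λ ≤ N := tendsto_natCast_atTop_atTop.eventually_ge_atTop _
    have ev3 : ∀ᶠ N : ℕ in atTop, 0 < N := eventually_gt_atTop 0
    filter_upwards [ev1, ev2, ev3] with N h1 h2 h3
    have hN : (0 : ℝ) < N := by exact_mod_cast h3
    obtain ⟨δ, hδ⟩ : ∃ δ, δ = Λ / N := ⟨_, rfl⟩
    have hδ0 : 0 < δ := by rw [hδ]; positivity
    have hδ1 : δ ≤ 1 := by rw [hδ, div_le_one hN]; exact h2
    have hδN : (N : ℝ) * δ = Λ := by rw [hδ]; field_simp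
    obtain ⟨ε, hε⟩ : ∃ ε, ε = Real.exp δ - 1 := ⟨_, rfl⟩
    have hε0 : 0 < ε := by
      rw [hε]
      have := Real.add_one_lt_exp hδ0.ne'
      linarith
    have hε1 : ε ≤ δ + δ ^ 2 := by
      rw [hε]
      have := Real.abs_exp_sub_one_sub_id_le (x := δ) (by rw [abs_of_pos hδ0]; exact hδ1)
      have h := (abs_le.1 this).2
      linarith
    have hε2 : ε ≤ 2 * δ := by nlinarith
    have hεq : ε * (1 + q) ≤ 1 := by
      have h4 : 2 * δ * (1 + q) ≤ 1 := by
        rw [hδ]
        have e : 2 * (Λ / N) * (1 + q) = 2 * Λ * (1 + q) / N := by ring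
        rw [e, div_le_one hN]
        exact h1
      have h5 : ε * (1 + q) ≤ 2 * δ * (1 + q) := mul_le_mul_of_nonneg_right hε2 (by linarith)
      linarith
    have hit : ∀ j : ℕ, vV U (k * Real.exp δ ^ j) ≤
        Real.exp (j * (m * ε + q * (1 + q) * ε ^ 2)) * vV U k := by
      intro j
      induction j with
      | zero => simp
      | succ j ih =>
        have h6 := hstep (k * Real.exp δ ^ j) ε (by positivity) hε0 hεq
        have e1 : k * Real.exp δ ^ j * (1 + ε) = k * Real.exp δ ^ (j + 1) := by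
          rw [hε, pow_succ]
          ring
        rw [e1] at h6
        refine h6.trans ?_
        refine (mul_le_mul_of_nonneg_left ih (Real.exp_pos _).le).trans (le_of_eq ?_)
        rw [← mul_assoc, ← Real.exp_add]
        congr 2
        push_cast
        ring
    have h7 := hit N
    have e2 : k * Real.exp δ ^ N = k' := by
      rw [← Real.exp_nat_mul, hδN, hΛ, Real.exp_log hr]
      field_simp
    rw [e2] at h7
    refine h7.trans (mul_le_mul_of_nonneg_right (Real.exp_le_exp.2 ?_) hV.le)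
    have h8 : ε ^ 2 ≤ 4 * δ ^ 2 := by nlinarith
    have h9 : m * ε + q * (1 + q) * ε ^ 2 ≤ m * (δ + δ ^ 2) + q * (1 + q) * (4 * δ ^ 2) :=
      add_le_add (mul_le_mul_of_nonneg_left hε1 hm0)
        (mul_le_mul_of_nonneg_left h8 (by positivity))
    have e3 : m * Λ + K / N = N * (m * (δ + δ ^ 2) + q * (1 + q) * (4 * δ ^ 2)) := by
      rw [hK, hδ]
      field_simp
      ring
    rw [e3]
    exact mul_le_mul_of_nonneg_left h9 hN.le
  have hlim : Tendsto (fun N : ℕ => Real.exp (m * Λ + K / N) * vV U k) atTop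
      (𝓝 (Real.exp (m * Λ + 0) * vV U k)) := by
    refine Tendsto.mul_const _ ((Real.continuous_exp.tendsto _).comp ?_)
    exact tendsto_const_nhds.add (tendsto_const_div_atTop_nhds_zero_nat K)
  rw [add_zero] at hlim
  have h10 := ge_of_tendsto hlim hmain
  rwa [mul_comm Λ m]

end Pool.Agent.REV.H19
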