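import Pool.Agent.REV.StmtsA2

/-!
# Squad REV, row ANT (helper19): antitone after one step
-/

set_option autoImplicit false

namespace Pool.Agent.REV.H19

open Set MeasureTheory Pool.Agent.REV

theorem wt_bd {c x p : ℝ} (hc : 0 < c) (hx0 : 0 ≤ x) (hx : x ≤ c) (hp : 0 ≤ p) :
    0 ≤ (1 - x ^ 2 / c ^ 2) ^ p ∧ (1 - x ^ 2 / c ^ 2) ^ p ≤ 1 := by
  have h1 : x ^ 2 / c ^ 2 ≤ 1 := by
    rw [div_le_one (by positivity)]
    exact pow_le_pow_left₀ hx0 hx 2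
  have h2 : 0 ≤ x ^ 2 / c ^ 2 := by positivity
  exact ⟨Real.rpow_nonneg (by linarith) _, Real.rpow_le_one (by linarith) (by linarith) hp⟩

theorem wt_int (p : ℝ) (hp : 0 ≤ p) (g : ℝ → ℝ) (hg : Adm g) {c d : ℝ} (hc : 0 < c)
    (hd0 : 0 ≤ d) (hd : d ≤ c) (hc1 : c ≤ 1) :
    IntervalIntegrable (fun x : ℝ => (1 - x ^ 2 / c ^ 2) ^ p * g x) volume 0 d ∧
    IntervalIntegrable (fun x : ℝ => (1 - x ^ 2 / c ^ 2) ^ p * g x) volume d c := by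
  obtain ⟨M, hM⟩ := hg.bdd
  have hm : Measurable fun x : ℝ => (1 - x ^ 2 / c ^ 2) ^ p * g x :=
    ((measurable_const.sub ((measurable_id.pow_const 2).div_const (c ^ 2))).pow_const p).mul
      hg.meas
  have hb : ∀ x : ℝ, 0 ≤ x → x ≤ c → ‖(1 - x ^ 2 / c ^ 2) ^ p * g x‖ ≤ M := by
    intro x hx0 hx
    have h1 := wt_bd hc hx0 hx hp
    have h2 := hg.nonneg x ⟨hx0, hx.trans hc1⟩
    have h3 := hM x ⟨hx0, hx.trans hc1⟩
    rw [Real.norm_eq_abs, abs_of_nonneg (mul_nonneg h1.1 h2)]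
    calc (1 - x ^ 2 / c ^ 2) ^ p * g x ≤ 1 * g x := mul_le_mul_of_nonneg_right h1.2 h2
      _ ≤ M := by rw [one_mul]; exact h3
  refine ⟨?_, ?_⟩
  · rw [intervalIntegrable_iff_integrableOn_Ioc_of_le hd0]
    refine Measure.integrableOn_of_bounded (M := M) (by simp) hm.aestronglyMeasurable ?_
    refine (ae_restrict_iff' measurableSet_Ioc).2 (Filter.Eventually.of_forall fun x hx => ?_)
    exact hb x hx.1.le (hx.2.trans hd)
  · rw [intervalIntegrable_iff_integrableOn_Ioc_of_le hd]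
    refine Measure.integrableOn_of_bounded (M := M) (by simp) hm.aestronglyMeasurable ?_
    refine (ae_restrict_iff' measurableSet_Ioc).2 (Filter.Eventually.of_forall fun x hx => ?_)
    exact hb x (hd0.trans hx.1.le) hx.2

theorem mono_aux (p : ℝ) (hp : 0 ≤ p) (g : ℝ → ℝ) (hg : Adm g) {c c' : ℝ} (h0 : 0 < c)
    (h1 : c ≤ c') (h2 : c' ≤ 1) :
    ∫ x in (0 : ℝ)..c, (1 - x ^ 2 / c ^ 2) ^ p * g x ≤
      ∫ x in (0 : ℝ)..c', (1 - x ^ 2 / c' ^ 2) ^ p * g x := by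
  have h0' : 0 < c' := h0.trans_le h1
  obtain ⟨i1, -⟩ := wt_int p hp g hg h0 h0.le le_rfl (h1.trans h2)
  obtain ⟨i2, i3⟩ := wt_int p hp g hg h0' h0.le h1 h2
  rw [← intervalIntegral.integral_add_adjacent_intervals i2 i3]
  have h3 : 0 ≤ ∫ x in c..c', (1 - x ^ 2 / c' ^ 2) ^ p * g x := by
    refine intervalIntegral.integral_nonneg h1 fun x hx => ?_
    exact mul_nonneg (wt_bd h0' (h0.le.trans hx.1) hx.2 hp).1
      (hg.nonneg x ⟨h0.le.trans hx.1, hx.2.trans h2⟩)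
  have h4 : ∫ x in (0 : ℝ)..c, (1 - x ^ 2 / c ^ 2) ^ p * g x ≤
      ∫ x in (0 : ℝ)..c, (1 - x ^ 2 / c' ^ 2) ^ p * g x := by
    refine intervalIntegral.integral_mono_on h0.le i1 i2 fun x hx => ?_
    refine mul_le_mul_of_nonneg_right ?_ (hg.nonneg x ⟨hx.1, (hx.2.trans h1).trans h2⟩)
    have h5 : x ^ 2 / c ^ 2 ≤ 1 := by
      rw [div_le_one (by positivity)]
      exact pow_le_pow_left₀ hx.1 hx.2 2
    refine Real.rpow_le_rpow (by linarith) ?_ hp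
    have h6 : x ^ 2 / c' ^ 2 ≤ x ^ 2 / c ^ 2 :=
      div_le_div_of_nonneg_left (sq_nonneg x) (by positivity) (pow_le_pow_left₀ h0.le h1 2)
    linarith
  linarith

theorem adm_sq (f : ℝ → ℝ) (hf : Adm f) : Adm (fun x => x ^ 2 * f x) := by
  obtain ⟨M, hM⟩ := hf.bdd
  refine ⟨(measurable_id.pow_const 2).mul hf.meas, fun t ht => ?_, M, fun t ht => ?_⟩
  · exact mul_nonneg (sq_nonneg t) (hf.nonneg t ht)
  · have h1 : t ^ 2 ≤ 1 := by nlinarith [ht.1, ht.2]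
    calc t ^ 2 * f t ≤ 1 * f t := mul_le_mul_of_nonneg_right h1 (hf.nonneg t ht)
      _ ≤ M := by rw [one_mul]; exact hM t ht

theorem ant (int : IntStmt) (crc : CrcStmt) : AntStmt := by
  intro n i C1 C2 f hn hi hin h1 h2 hf
  have hn4 : (4 : ℝ) ≤ n := by exact_mod_cast hn
  have hii : (i : ℝ) + 1 ≤ n := by exact_mod_cast hin
  have hRA : ∀ c : ℝ, 0 ≤ c → c ≤ 1 → 0 ≤ RA n f c ∧ 0 ≤ RB n f c := fun c hc0 hc1 =>
    ((int n f hn hf).2 c hc0 hc1).2.2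
  -- monotonicity of `c RA`, `c^3 RB`
  have hY : ∀ c c' : ℝ, 0 ≤ c → c ≤ c' → c' ≤ 1 → c * RA n f c ≤ c' * RA n f c' := by
    intro c c' hc0 hcc hc1
    rcases hc0.eq_or_lt with h | h
    · rw [← h, zero_mul]
      exact mul_nonneg (hc0.trans hcc) (hRA c' (hc0.trans hcc) hc1).1
    · rw [(crc n f c h (hcc.trans hc1)).1, (crc n f c' (h.trans_le hcc) hc1).1]
      exact mono_aux _ (by linarith) f hf h hcc hc1
  have hZ : ∀ c c' : ℝ, 0 ≤ c → c ≤ c' → c' ≤ 1 → c ^ 3 * RB n f c ≤ c' ^ 3 * RB n f c' := by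
    intro c c' hc0 hcc hc1
    rcases hc0.eq_or_lt with h | h
    · rw [← h]
      have : (0 : ℝ) ^ 3 * RB n f 0 = 0 := by ring
      rw [this]
      have h5 : 0 ≤ c' := hc0.trans hcc
      exact mul_nonneg (pow_nonneg h5 3) (hRA c' h5 hc1).2
    · rw [(crc n f c h (hcc.trans hc1)).2, (crc n f c' (h.trans_le hcc) hc1).2]
      have h6 := mono_aux (((n : ℝ) - 4) / 2) (by linarith) _ (adm_sq f hf) h hcc hc1
      have h7 : ∀ d : ℝ, (fun x : ℝ => x ^ 2 * (1 - x ^ 2 / d ^ 2) ^ (((n : ℝ) - 4) / 2) * f x) =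
          fun x : ℝ => (1 - x ^ 2 / d ^ 2) ^ (((n : ℝ) - 4) / 2) * (x ^ 2 * f x) := by
        intro d
        funext x
        ring
      rw [h7 c, h7 c']
      exact h6
  have hcm : ∀ t ∈ Icc (0 : ℝ) 1, 0 ≤ Real.sqrt (1 - t ^ 2) ∧ Real.sqrt (1 - t ^ 2) ≤ 1 := by
    intro t ht
    refine ⟨Real.sqrt_nonneg _, ?_⟩
    rw [Real.sqrt_le_one]
    nlinarith [sq_nonneg t]
  -- the formula
  have hform : ∀ t ∈ Icc (0 : ℝ) 1, (1 - t ^ 2) ^ (((i : ℝ) + 2) / 2) * TT n i C1 C2 f t =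
      C1 * (Real.sqrt (1 - t ^ 2) ^ 2 * (Real.sqrt (1 - t ^ 2) *
        RA n f (Real.sqrt (1 - t ^ 2))) ^ i) +
      C2 * ((Real.sqrt (1 - t ^ 2) ^ 3 * RB n f (Real.sqrt (1 - t ^ 2))) *
        (Real.sqrt (1 - t ^ 2) * RA n f (Real.sqrt (1 - t ^ 2))) ^ (i - 1)) := by
    intro t ht
    have h3 : 0 ≤ 1 - t ^ 2 := by nlinarith [ht.1, ht.2]
    have h4 : (1 - t ^ 2) ^ (((i : ℝ) + 2) / 2) = Real.sqrt (1 - t ^ 2) ^ (i + 2) := by
      have h5 : ∀ y : ℝ, 0 ≤ y → y ^ (((i : ℝ) + 2) / 2) = Real.sqrt y ^ (i + 2) := by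
        intro y hy
        rw [Real.sqrt_eq_rpow, ← Real.rpow_natCast, ← Real.rpow_mul hy]
        push_cast
        congr 1
        ring
      exact h5 _ h3
    rw [h4]
    obtain ⟨k, rfl⟩ : ∃ k, i = k + 1 := ⟨i - 1, by omega⟩
    unfold TT
    rw [Nat.add_sub_cancel]
    ring
  have hmono : ∀ t ∈ Icc (0 : ℝ) 1, ∀ t' ∈ Icc (0 : ℝ) 1, t ≤ t' →
      (1 - t' ^ 2) ^ (((i : ℝ) + 2) / 2) * TT n i C1 C2 f t' ≤
        (1 - t ^ 2) ^ (((i : ℝ) + 2) / 2) * TT n i C1 C2 f t := by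
    intro t ht t' ht' htt
    rw [hform t ht, hform t' ht']
    have h3 : Real.sqrt (1 - t' ^ 2) ≤ Real.sqrt (1 - t ^ 2) := by
      apply Real.sqrt_le_sqrt
      nlinarith [ht.1, ht'.1]
    obtain ⟨a1, a2⟩ := hcm t ht
    obtain ⟨b1, b2⟩ := hcm t' ht'
    have hy := hY _ _ b1 h3 a2
    have hz := hZ _ _ b1 h3 a2
    have hy0 : 0 ≤ Real.sqrt (1 - t' ^ 2) * RA n f (Real.sqrt (1 - t' ^ 2)) :=
      mul_nonneg b1 (hRA _ b1 b2).1
    have hz0 : 0 ≤ Real.sqrt (1 - t' ^ 2) ^ 3 * RB n f (Real.sqrt (1 - t' ^ 2)) :=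
      mul_nonneg (pow_nonneg b1 3) (hRA _ b1 b2).2
    have hy1 : 0 ≤ Real.sqrt (1 - t ^ 2) * RA n f (Real.sqrt (1 - t ^ 2)) := hy0.trans hy
    have hz1 := hz0.trans hz
    refine add_le_add (mul_le_mul_of_nonneg_left ?_ h1) (mul_le_mul_of_nonneg_left ?_ h2)
    · exact mul_le_mul (pow_le_pow_left₀ b1 h3 2) (pow_le_pow_left₀ hy0 hy i)
        (pow_nonneg hy0 i) (pow_nonneg a1 2)
    · exact mul_le_mul hz (pow_le_pow_left₀ hy0 hy (i - 1)) (pow_nonneg hy0 _) hz1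
  have hnn : ∀ t ∈ Icc (0 : ℝ) 1, 0 ≤ (1 - t ^ 2) ^ (((i : ℝ) + 2) / 2) * TT n i C1 C2 f t := by
    intro t ht
    rw [hform t ht]
    obtain ⟨a1, a2⟩ := hcm t ht
    have h3 := hRA _ a1 a2
    have hy1 : 0 ≤ Real.sqrt (1 - t ^ 2) * RA n f (Real.sqrt (1 - t ^ 2)) := mul_nonneg a1 h3.1
    have hz1 : 0 ≤ Real.sqrt (1 - t ^ 2) ^ 3 * RB n f (Real.sqrt (1 - t ^ 2)) :=
      mul_nonneg (pow_nonneg a1 3) h3.2
    exact add_nonneg (mul_nonneg h1 (mul_nonneg (pow_nonneg a1 2) (pow_nonneg hy1 i)))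
      (mul_nonneg h2 (mul_nonneg hz1 (pow_nonneg hy1 _)))
  refine ⟨fun t ht t' ht' htt => hmono t ht t' ht' htt, ?_⟩
  intro t ht t' ht' htt
  have hE : ∀ s ∈ Icc (0 : ℝ) 1, El n 0 (TT n i C1 C2 f) s =
      (1 - s ^ 2) ^ (((n : ℝ) - 1 - i) / 2) *
        ((1 - s ^ 2) ^ (((i : ℝ) + 2) / 2) * TT n i C1 C2 f s) := by
    intro s hs
    have h3 : 0 ≤ 1 - s ^ 2 := by nlinarith [hs.1, hs.2]
    unfold El
    rw [← mul_assoc, ← Real.rpow_add_of_nonneg h3 (by linarith) (by positivity)]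
    have e1 : 1 + (0 - 1) * s ^ 2 = 1 - s ^ 2 := by ring
    have e2 : ((n : ℝ) + 1) / 2 = ((n : ℝ) - 1 - i) / 2 + ((i : ℝ) + 2) / 2 := by ring
    rw [e1, e2]
  rw [hE t ht, hE t' ht']
  have h3 : 0 ≤ 1 - t' ^ 2 := by nlinarith [ht'.1, ht'.2]
  have h4 : 0 ≤ 1 - t ^ 2 := by nlinarith [ht.1, ht.2]
  refine mul_le_mul ?_ (hmono t ht t' ht' htt) (hnn t' ht') (Real.rpow_nonneg h4 _)
  refine Real.rpow_le_rpow h3 ?_ (by linarith)
  nlinarith [ht.1, ht'.1]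

end Pool.Agent.REV.H19
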