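import Pool.Agent.REV.StmtsG
import Pool.Agent.BPH.Haa
import Pool.Agent.BPH.Uni
import Pool.Agent.BPH.Sph

/-!
# Squad REV, row AVI (helper19): the averaged density as a mean over the group
-/

set_option autoImplicit false

open MeasureTheory Module Set Filter
open scoped RealInnerProductSpace Pointwise Topology ENNReal

namespace Pool.Agent.REV.H19

open Pool.Agent.REV Pool.Agent.BPH

section

variable {E : Type} [NormedAddCommGroup E] [InnerProductSpace ℝ E] [FiniteDimensional ℝ E]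

/-- orthogonal decomposition along a unit vector -/
theorem decomp {e : E} (he : ‖e‖ = 1) (x : E) :
    x = ⟪e, x⟫ • e + (((ℝ ∙ e)ᗮ.orthogonalProjectionOnto x : (ℝ ∙ e)ᗮ) : E) := by
  have h1 : (((ℝ ∙ e)ᗮ.orthogonalProjectionOnto x : (ℝ ∙ e)ᗮ) : E) =
      x - (ℝ ∙ e).starProjection x := Submodule.starProjection_orthogonal_val x
  rw [h1, Submodule.starProjection_unit_singleton ℝ he]
  abel

theorem norm_proj {e : E} (he : ‖e‖ = 1) {x : E} (hx : ‖x‖ = 1) :
    ‖(ℝ ∙ e)ᗮ.orthogonalProjectionOnto x‖ = Real.sqrt (1 - |⟪e, x⟫| ^ 2) := by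
  have h1 := decomp he x
  have h2 : (((ℝ ∙ e)ᗮ.orthogonalProjectionOnto x : (ℝ ∙ e)ᗮ) : E) = x - ⟪e, x⟫ • e := by
    rw [eq_sub_iff_add_eq, add_comm]
    exact h1.symm
  have h3 : ‖(ℝ ∙ e)ᗮ.orthogonalProjectionOnto x‖ ^ 2 = 1 - |⟪e, x⟫| ^ 2 := by
    have h4 : ‖(ℝ ∙ e)ᗮ.orthogonalProjectionOnto x‖ = ‖x - ⟪e, x⟫ • e‖ := by
      rw [← h2]
      rfl
    rw [h4, norm_sub_sq_real, hx, norm_smul, he, inner_smul_right, real_inner_comm x e,
      Real.norm_eq_abs, mul_one, sq_abs]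
    ring
  rw [← h3, Real.sqrt_sq (norm_nonneg _)]

/-- extension of an isometry of `e^⊥`, with `e` fixed -/
theorem ext_fix {e : E} (he : ‖e‖ = 1) (T : (ℝ ∙ e)ᗮ ≃ₗᵢ[ℝ] (ℝ ∙ e)ᗮ) :
    ∃ K K' : E ≃ₗᵢ[ℝ] E, K e = e ∧ K' e = -e ∧
      (∀ x, K x = ⟪e, x⟫ • e + ((T ((ℝ ∙ e)ᗮ.orthogonalProjectionOnto x) : (ℝ ∙ e)ᗮ) : E)) ∧
      ∀ x, K' x = (-⟪e, x⟫) • e +
        ((T ((ℝ ∙ e)ᗮ.orthogonalProjectionOnto x) : (ℝ ∙ e)ᗮ) : E) := by
  obtain ⟨H, hH⟩ := UniRow.exists_ext (ℝ ∙ e)ᗮ T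
  set R : E ≃ₗᵢ[ℝ] E := (ℝ ∙ e)ᗮ.reflection with hR
  have hRe : R e = -e := Submodule.reflection_orthogonalComplement_singleton_eq_neg e
  have hRW : ∀ w : (ℝ ∙ e)ᗮ, R (w : E) = w := fun w =>
    Submodule.reflection_mem_subspace_eq_self w.2
  have hPe : (ℝ ∙ e)ᗮ.orthogonalProjectionOnto e = 0 :=
    Submodule.orthogonalProjectionOnto_apply_of_mem_orthogonal
      (Submodule.le_orthogonal_orthogonal _ (Submodule.mem_span_singleton_self e))
  -- the form of an isometry which maps `e` to `s e`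
  have hform : ∀ (s : ℝ) (hs : s = 1 ∨ s = -1) (K : E ≃ₗᵢ[ℝ] E), K e = s • e →
      (∀ x, (ℝ ∙ e)ᗮ.orthogonalProjectionOnto (K x) =
        T ((ℝ ∙ e)ᗮ.orthogonalProjectionOnto x)) →
      ∀ x, K x = (s * ⟪e, x⟫) • e +
        ((T ((ℝ ∙ e)ᗮ.orthogonalProjectionOnto x) : (ℝ ∙ e)ᗮ) : E) := by
    intro s hs K hKe hKP x
    have h1 := decomp he (K x)
    rw [hKP x] at h1
    have h2 : ⟪e, K x⟫ = s * ⟪e, x⟫ := by
      have h3 : ⟪K e, K x⟫ = ⟪e, x⟫ := K.inner_map_map e x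
      rw [hKe, inner_smul_left] at h3
      have h4 : s * ⟪e, K x⟫ = ⟪e, x⟫ := by simpa using h3
      rcases hs with rfl | rfl
      · linarith
      · linarith
    rw [h2] at h1
    exact h1
  have hHe : H e = e ∨ H e = -e := by
    have h1 := decomp he (H e)
    rw [hH e, hPe, map_zero] at h1
    simp only [ZeroMemClass.coe_zero, add_zero] at h1
    have h2 : ‖H e‖ = 1 := by rw [H.norm_map, he]
    have h3 : |⟪e, H e⟫| = 1 := by
      rw [h1, norm_smul, he, mul_one, Real.norm_eq_abs] at h2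
      exact h2
    rcases abs_eq (zero_le_one) |>.1 h3 with h4 | h4
    · left
      rw [h4, one_smul] at h1
      exact h1
    · right
      rw [h4, neg_smul, one_smul] at h1
      exact h1
  have hRP : ∀ x, (ℝ ∙ e)ᗮ.orthogonalProjectionOnto (R x) =
      (ℝ ∙ e)ᗮ.orthogonalProjectionOnto x := by
    intro x
    conv_lhs => rw [decomp he x]
    rw [map_add, map_smul, hRe, hRW, map_add, map_smul, map_neg, hPe, neg_zero, smul_zero,
      zero_add, Submodule.orthogonalProjectionOnto_mem_subspace_eq_self]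
  have hKP' : ∀ K : E ≃ₗᵢ[ℝ] E, (∀ x, (ℝ ∙ e)ᗮ.orthogonalProjectionOnto (K x) =
        T ((ℝ ∙ e)ᗮ.orthogonalProjectionOnto x)) →
      ∀ x, (ℝ ∙ e)ᗮ.orthogonalProjectionOnto ((K.trans R) x) =
        T ((ℝ ∙ e)ᗮ.orthogonalProjectionOnto x) := by
    intro K hK x
    show (ℝ ∙ e)ᗮ.orthogonalProjectionOnto (R (K x)) = _
    rw [hRP, hK]
  obtain ⟨K, hK1, hK2⟩ : ∃ K : E ≃ₗᵢ[ℝ] E, K e = e ∧
      ∀ x, (ℝ ∙ e)ᗮ.orthogonalProjectionOnto (K x) =
        T ((ℝ ∙ e)ᗮ.orthogonalProjectionOnto x) := by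
    rcases hHe with h | h
    · exact ⟨H, h, hH⟩
    · refine ⟨H.trans R, ?_, hKP' H hH⟩
      show R (H e) = e
      rw [h, map_neg, hRe, neg_neg]
  refine ⟨K, K.trans R, hK1, ?_, ?_, ?_⟩
  · show R (K e) = -e
    rw [hK1, hRe]
  · intro x
    have := hform 1 (Or.inl rfl) K (by rw [one_smul]; exact hK1) hK2 x
    rw [one_mul] at this
    exact this
  · intro x
    have := hform (-1) (Or.inr rfl) (K.trans R) (by
      show R (K e) = _
      rw [hK1, hRe, neg_smul, one_smul]) (hKP' K hK2) x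
    rw [neg_one_mul] at this
    exact this

variable [MeasurableSpace E] [BorelSpace E]

/-- change of variables by an isometry -/
theorem int_iso (K : E ≃ₗᵢ[ℝ] E) {f g : E → ℝ} (hf : Measurable f) (hg : Measurable g) :
    ∫ x, g x * f (K x) ∂sph E = ∫ x, g (K.symm x) * f x ∂sph E := by
  have hm : Measurable fun x => g (K.symm x) * f x :=
    (hg.comp K.symm.continuous.measurable).mul hf
  have h2 : ∫ x, g (K.symm x) * f x ∂((sph E).map K) =
      ∫ x, g (K.symm (K x)) * f (K x) ∂sph E :=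
    integral_map K.continuous.measurable.aemeasurable hm.aestronglyMeasurable
  rw [sph_facts.iso K] at h2
  rw [h2]
  simp only [K.symm_apply_apply]

end

theorem avi : AviStmt := by
  intro E _ _ _ _ _ hE e he f hf hf0 hfb g hg a b hab
  have hpr := sph_facts.prob (E := E)
  have hnt : Nontrivial E := ⟨⟨e, 0, by
    intro h
    rw [h, norm_zero] at he
    exact zero_ne_one he⟩⟩
  obtain ⟨Cf, hCf⟩ := hfb
  obtain ⟨Cg, hCg⟩ := hg.bdd
  have hCf0 : 0 ≤ Cf := (hf0 0).trans (hCf 0)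
  have hCg0 : 0 ≤ Cg := (abs_nonneg _).trans (hCg 0)
  set W : Submodule ℝ E := (ℝ ∙ e)ᗮ with hW
  obtain ⟨lam, hl⟩ := haa W
  have hlp := hl.prob
  let P : E →L[ℝ] W := W.orthogonalProjectionOnto
  let Ψ : E × (W →L[ℝ] W) → ℝ := fun p =>
    g p.1 * ((f (|⟪e, p.1⟫| • e + ((p.2 (P p.1) : W) : E)) +
      f ((-|⟪e, p.1⟫|) • e + ((p.2 (P p.1) : W) : E))) / 2)
  have hmev : Measurable fun p : E × (W →L[ℝ] W) => ((p.2 (P p.1) : W) : E) :=
    measurable_subtype_coe.comp (UniRow.eval_meas.comp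
      (measurable_snd.prodMk (P.continuous.measurable.comp measurable_fst)))
  have hmin : Measurable fun p : E × (W →L[ℝ] W) => |⟪e, p.1⟫| := by
    have : Measurable fun x : E => |⟪e, x⟫| := by fun_prop
    exact this.comp measurable_fst
  have hΨm : Measurable Ψ := by
    refine (hg.meas.comp measurable_fst).mul ((Measurable.add ?_ ?_).div_const 2)
    · exact hf.comp ((hmin.smul_const e).add hmev)
    · exact hf.comp ((hmin.neg.smul_const e).add hmev)
  have hΨb : ∀ p, |Ψ p| ≤ Cg * Cf := by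
    intro p
    show |g p.1 * ((f (|⟪e, p.1⟫| • e + ((p.2 (P p.1) : W) : E)) +
      f ((-|⟪e, p.1⟫|) • e + ((p.2 (P p.1) : W) : E))) / 2)| ≤ _
    rw [abs_mul]
    refine mul_le_mul (hCg _) ?_ (abs_nonneg _) hCg0
    rw [abs_of_nonneg (by
      have h1 := hf0 (|⟪e, p.1⟫| • e + ((p.2 (P p.1) : W) : E))
      have h2 := hf0 ((-|⟪e, p.1⟫|) • e + ((p.2 (P p.1) : W) : E))
      positivity)]
    have h1 := hCf (|⟪e, p.1⟫| • e + ((p.2 (P p.1) : W) : E))
    have h2 := hCf ((-|⟪e, p.1⟫|) • e + ((p.2 (P p.1) : W) : E))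
    linarith
  have hΨi : Integrable Ψ ((sph E).prod lam) :=
    integrable_bdd hΨm (Eventually.of_forall hΨb)
  -- step A
  have hWo : Wᗮ ≠ ⊤ := by
    intro h
    have h1 : W = ⊥ := by
      exact (Submodule.orthogonal_eq_top_iff _).1 h
    have h2 : (ℝ ∙ e)ᗮ = ⊥ := h1
    rw [Submodule.orthogonal_eq_bot_iff] at h2
    have h3 : finrank ℝ (ℝ ∙ e) = finrank ℝ E := by
      rw [h2, finrank_top]
    have h4 : finrank ℝ (ℝ ∙ e) = 1 := finrank_span_singleton (by
      intro h0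
      rw [h0, norm_zero] at he
      exact zero_ne_one he)
    omega
  have hA : ∀ᵐ x ∂sph E, g x * av e f |⟪e, x⟫| = ∫ h, Ψ (x, h) ∂lam := by
    have h0 : ∀ᵐ x ∂sph E, x ∉ (Wᗮ : Set E) := by
      rw [ae_iff]
      simp only [not_not]
      exact sph_facts.null Wᗮ hWo
    filter_upwards [h0, sph_facts.norm (E := E)] with x hx hx1
    have hP0 : P x ≠ 0 := by
      intro h
      apply hx
      exact (Submodule.orthogonalProjectionOnto_eq_zero_iff).1 h
    have hy : ‖nrm (P x)‖ = 1 := norm_nrm hP0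
    set τ : ℝ := |⟪e, x⟫| with hτ
    let φ : E → ℝ := fun θ => (f (τ • e + Real.sqrt (1 - τ ^ 2) • θ) +
      f ((-τ) • e + Real.sqrt (1 - τ ^ 2) • θ)) / 2
    have hφ : Tst φ := by
      refine ⟨?_, Cf, fun θ => ?_⟩
      · refine (Measurable.add ?_ ?_).div_const 2
        · exact hf.comp (by fun_prop)
        · exact hf.comp (by fun_prop)
      · show |(f (τ • e + Real.sqrt (1 - τ ^ 2) • θ) +
          f ((-τ) • e + Real.sqrt (1 - τ ^ 2) • θ)) / 2| ≤ Cf
        have h1 := hf0 (τ • e + Real.sqrt (1 - τ ^ 2) • θ)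
        have h2 := hf0 ((-τ) • e + Real.sqrt (1 - τ ^ 2) • θ)
        have h3 := hCf (τ • e + Real.sqrt (1 - τ ^ 2) • θ)
        have h4 := hCf ((-τ) • e + Real.sqrt (1 - τ ^ 2) • θ)
        rw [abs_of_nonneg (by positivity)]
        linarith
    have h1 : av e f τ = ∫ h, φ ((h (nrm (P x)) : W) : E) ∂lam :=
      ((uni sph_facts).sub W lam hl (nrm (P x)) hy φ hφ).symm
    rw [h1, ← integral_const_mul]
    refine integral_congr_ae (Eventually.of_forall fun h => ?_)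
    have h2 : Real.sqrt (1 - τ ^ 2) • ((h (nrm (P x)) : W) : E) = ((h (P x) : W) : E) := by
      have h3 : ‖P x‖ = Real.sqrt (1 - τ ^ 2) := norm_proj he hx1
      rw [← h3, nrm, map_smul, Submodule.coe_smul, smul_smul,
        mul_inv_cancel₀ (norm_ne_zero_iff.2 hP0), one_smul]
    show g x * ((f (τ • e + Real.sqrt (1 - τ ^ 2) • ((h (nrm (P x)) : W) : E)) +
      f ((-τ) • e + Real.sqrt (1 - τ ^ 2) • ((h (nrm (P x)) : W) : E))) / 2) = Ψ (x, h)
    rw [h2]
  -- step B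
  have hB : ∀ᵐ h ∂lam, a ≤ ∫ x, Ψ (x, h) ∂sph E ∧ ∫ x, Ψ (x, h) ∂sph E ≤ b := by
    filter_upwards [hl.iso] with h hh
    obtain ⟨T, rfl⟩ := hh
    obtain ⟨K, K', hK1, hK2, hK3, hK4⟩ := ext_fix he T
    have hint : ∀ L : E ≃ₗᵢ[ℝ] E, Integrable (fun x => g x * f (L x)) (sph E) := by
      intro L
      refine integrable_bdd (C := Cg * Cf) (hg.meas.mul (hf.comp L.continuous.measurable))
        (Eventually.of_forall fun x => ?_)
      rw [abs_mul, abs_of_nonneg (hf0 _)]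
      exact mul_le_mul (hCg _) (hCf _) (hf0 _) hCg0
    have h1 : ∫ x, Ψ (x, opT T) ∂sph E =
        (∫ x, g x * f (K x) ∂sph E + ∫ x, g x * f (K' x) ∂sph E) / 2 := by
      rw [← integral_add (hint K) (hint K'), ← integral_div]
      refine integral_congr_ae (Eventually.of_forall fun x => ?_)
      show g x * ((f (|⟪e, x⟫| • e + ((T (P x) : W) : E)) +
        f ((-|⟪e, x⟫|) • e + ((T (P x) : W) : E))) / 2) =
        (g x * f (K x) + g x * f (K' x)) / 2
      rw [hK3 x, hK4 x]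
      rcases abs_choice ⟪e, x⟫ with h5 | h5
      · rw [h5]
        ring
      · rw [h5, neg_neg]
        ring
    have h2 := hab K.symm (Or.inl (by rw [← hK1, K.symm_apply_apply, hK1]))
    have h3 := hab K'.symm (Or.inr (by
      have : K' (-e) = e := by rw [map_neg, hK2, neg_neg]
      rw [← this, K'.symm_apply_apply, this]))
    rw [← int_iso K hf hg.meas] at h2
    rw [← int_iso K' hf hg.meas] at h3
    rw [h1]
    constructor
    · linarith [h2.1, h3.1]
    · linarith [h2.2, h3.2]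
  have hmain : ∫ x, g x * av e f |⟪e, x⟫| ∂sph E = ∫ h, ∫ x, Ψ (x, h) ∂sph E ∂lam := by
    rw [integral_congr_ae hA]
    exact integral_integral_swap (f := fun x h => Ψ (x, h)) hΨi
  have hii : Integrable (fun h => ∫ x, Ψ (x, h) ∂sph E) lam := hΨi.integral_prod_right
  rw [hmain]
  constructor
  · have := integral_mono_ae (integrable_const a) hii (hB.mono fun h hh => hh.1)
    simpa using this
  · have := integral_mono_ae hii (integrable_const b) (hB.mono fun h hh => hh.2)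
    simpa using this

end Pool.Agent.REV.H19
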