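import Pool.Agent.REV.StmtsA1

/-!
# Squad REV, row ITR (helper19): iteration of the contraction
-/

set_option autoImplicit false

namespace Pool.Agent.REV.H19

open Set Filter Topology Pool.Agent.REV

theorem ra_nonneg (n : ℕ) (f : ℝ → ℝ) (hf : ∀ t ∈ Icc (0 : ℝ) 1, 0 ≤ f t) (c : ℝ)
    (hc : c ∈ Icc (0 : ℝ) 1) : 0 ≤ RA n f c := by
  unfold RA
  refine intervalIntegral.integral_nonneg zero_le_one fun r hr => ?_
  refine mul_nonneg (Real.rpow_nonneg ?_ _) (hf _ ⟨mul_nonneg hr.1 hc.1, ?_⟩)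
  · nlinarith [hr.1, hr.2]
  · exact mul_le_one₀ hr.2 hc.1 hc.2

theorem rb_nonneg (n : ℕ) (f : ℝ → ℝ) (hf : ∀ t ∈ Icc (0 : ℝ) 1, 0 ≤ f t) (c : ℝ)
    (hc : c ∈ Icc (0 : ℝ) 1) : 0 ≤ RB n f c := by
  unfold RB
  refine intervalIntegral.integral_nonneg zero_le_one fun r hr => ?_
  refine mul_nonneg (mul_nonneg (sq_nonneg r) (Real.rpow_nonneg ?_ _))
    (hf _ ⟨mul_nonneg hr.1 hc.1, ?_⟩)
  · nlinarith [hr.1, hr.2]
  · exact mul_le_one₀ hr.2 hc.1 hc.2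

theorem sqrt_mem {t : ℝ} (ht : t ∈ Icc (0 : ℝ) 1) : Real.sqrt (1 - t ^ 2) ∈ Icc (0 : ℝ) 1 := by
  refine ⟨Real.sqrt_nonneg _, ?_⟩
  rw [Real.sqrt_le_one]
  nlinarith [sq_nonneg t]

theorem tt_nonneg (n i : ℕ) (C1 C2 : ℝ) (h1 : 0 ≤ C1) (h2 : 0 ≤ C2) (f : ℝ → ℝ)
    (hf : ∀ t ∈ Icc (0 : ℝ) 1, 0 ≤ f t) (t : ℝ) (ht : t ∈ Icc (0 : ℝ) 1) :
    0 ≤ TT n i C1 C2 f t := by
  unfold TT
  have ha := ra_nonneg n f hf _ (sqrt_mem ht)
  have hb := rb_nonneg n f hf _ (sqrt_mem ht)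
  positivity

theorem pinch_congr (n : ℕ) (A : ℝ) (f g : ℝ → ℝ) (h : ∀ t ∈ Icc (0 : ℝ) 1, f t = g t)
    (hp : Pinch n A g) : Pinch n A f := by
  refine ⟨?_, ?_⟩
  · intro a ha b hb hab
    have := hp.1 ha hb hab
    unfold El at this ⊢
    rw [h a ha, h b hb]
    exact this
  · intro a ha b hb hab
    have := hp.2 ha hb hab
    unfold El at this ⊢
    rw [h a ha, h b hb]
    exact this

theorem itr (con : ConStmt) (sca : ScaStmt) (bnd : BndStmt) : ItrStmt := by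
  intro n i C1 C2 A s F hn hi hin h1 h2 hA hs hF0 hF hP ε hε
  set lam : ℝ := ((i : ℝ) + 2) / ((n : ℝ) + 1) with hlam
  have hl0 : 0 ≤ lam := by positivity
  have hl1 : lam < 1 := by
    rw [hlam, div_lt_one (by positivity)]
    have : (i : ℝ) + 2 ≤ n := by exact_mod_cast hin
    linarith
  have key : ∀ m, (∀ t ∈ Icc (0 : ℝ) 1, 0 ≤ F m t) ∧ Pinch n (lam ^ m * A) (F m) := by
    intro m
    induction m with
    | zero => exact ⟨hF0, by simpa using hP⟩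
    | succ m ih =>
      obtain ⟨ih1, ih2⟩ := ih
      refine ⟨fun t ht => ?_, ?_⟩
      · rw [hF m t ht]
        exact mul_nonneg (hs m) (tt_nonneg n i C1 C2 h1 h2 _ ih1 t ht)
      · have h3 := con n i C1 C2 (lam ^ m * A) (F m) hn hi (by omega) h1 h2 (by positivity) ih1 ih2
        have h4 := sca.1 n _ (s m) _ (hs m) h3
        have h5 : ((i : ℝ) + 2) / ((n : ℝ) + 1) * (lam ^ m * A) = lam ^ (m + 1) * A := by
          rw [← hlam]
          ring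
        rw [h5] at h4
        exact pinch_congr n _ _ _ (hF m) h4
  have hlim : Tendsto (fun m : ℕ => (1 + lam ^ m * A) ^ (((n : ℝ) + 1) / 2)) atTop (𝓝 1) := by
    have h6 : Tendsto (fun m : ℕ => 1 + lam ^ m * A) atTop (𝓝 1) := by
      have := ((tendsto_pow_atTop_nhds_zero_of_lt_one hl0 hl1).mul_const A).const_add 1
      simpa using this
    have h7 := h6.rpow_const (p := ((n : ℝ) + 1) / 2) (Or.inl one_ne_zero)
    simpa using h7
  have hev := hlim.eventually (ge_mem_nhds (show (1 : ℝ) < 1 + ε by linarith))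
  obtain ⟨M, hM⟩ := eventually_atTop.1 hev
  refine ⟨M, fun m hm t ht => ?_⟩
  obtain ⟨k1, k2⟩ := key m
  have hb := bnd n (lam ^ m * A) (F m) (by positivity) k1 k2 t ht
  have h0 : (0 : ℝ) ∈ Icc (0 : ℝ) 1 := ⟨le_rfl, zero_le_one⟩
  exact ⟨hb.1.trans (mul_le_mul_of_nonneg_right (hM m hm) (k1 t ht)),
    hb.2.trans (mul_le_mul_of_nonneg_right (hM m hm) (k1 0 h0))⟩

end Pool.Agent.REV.H19
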