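import Pool.Agent.REV.StmtsG3
import Pool.Agent.BPH.Gwa
import Pool.Agent.BPH.Gwb
import Pool.Agent.BPH.Spi
import Pool.Agent.BPH.Sph
import Pool.Agent.BPH.Zfu

/-!
# Squad REV, row ZST (helper19): the step on zonal densities
-/

set_option autoImplicit false

open MeasureTheory Module Set Filter
open scoped RealInnerProductSpace Pointwise Topology ENNReal

namespace Pool.Agent.REV.H19

open Pool.Agent.REV Pool.Agent.BPH

section

variable {E : Type} [NormedAddCommGroup E] [InnerProductSpace ℝ E] [FiniteDimensional ℝ E]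

/-- the projection of `e` to `u^⊥` is not zero if `u` is not in the line of `e` -/
theorem po_ne {e u : E} (he : ‖e‖ = 1) (hu : ‖u‖ = 1) (h : u ∉ (ℝ ∙ e)) : po u e ≠ 0 := by
  intro h0
  have h1 : po u e = e - (ℝ ∙ u).starProjection e := Submodule.starProjection_orthogonal_val e
  rw [h0, Submodule.starProjection_unit_singleton ℝ hu] at h1
  have h2 : e = ⟪u, e⟫ • u := (sub_eq_zero.1 h1.symm)
  have h3 : ⟪u, e⟫ ≠ 0 := by
    intro h4
    rw [h4, zero_smul] at h2
    rw [h2, norm_zero] at he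
    exact zero_ne_one he
  apply h
  rw [Submodule.mem_span_singleton]
  refine ⟨⟪u, e⟫⁻¹, ?_⟩
  have h5 : ⟪u, e⟫⁻¹ • (⟪u, e⟫ • u) = u := by
    rw [smul_smul, inv_mul_cancel₀ h3, one_smul]
  rw [← h2] at h5
  exact h5

end

theorem tt_abs (n i : ℕ) (c1 c2 : ℝ) (φ : ℝ → ℝ) (s : ℝ) :
    TT n i c1 c2 φ |s| = TT n i c1 c2 φ s := by
  unfold TT
  rw [sq_abs]

theorem zst (deq : DeqStmt) (zqq : ZqqStmt) (ttp : TtpStmt) (cpo : CpoStmt) : ZstStmt := by
  intro E _ _ _ _ _ i hn hi hin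
  have hnt : Nontrivial E := Module.nontrivial_of_finrank_pos (R := ℝ) (by omega)
  have hpr := sph_facts.prob (E := E)
  obtain ⟨c0, hc0, hdeq⟩ := deq E i hi hin
  obtain ⟨-, hC1, hC2, hk⟩ := cpo (finrank ℝ E) i hn hi hin
  refine ⟨c0 * kap (finrank ℝ E) ^ i, by positivity, ?_⟩
  intro e φ he hφ hD
  have hZ : 0 < ZZ i (zon e φ) :=
    (zfu gwa (gwb gwa) sph_facts (spi sph_facts)).pos i (zon e φ) (by omega) hD
  obtain ⟨hD', hS'⟩ := hdeq (zon e φ) hD
  set c : ℝ := c0 * kap (finrank ℝ E) ^ i / ZZ i (zon e φ) with hc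
  have hcpos : 0 < c := by positivity
  have hT := ttp (finrank ℝ E) i (C1 (finrank ℝ E) i) (C2 (finrank ℝ E) i) φ hn hC1 hC2.le hφ
  have hP : Prf (fun t => c * TT (finrank ℝ E) i (C1 (finrank ℝ E) i)
      (C2 (finrank ℝ E) i) φ t) := by
    obtain ⟨B, hB⟩ := hT.bdd
    exact ⟨hT.meas.const_mul c, fun t => mul_nonneg hcpos.le (hT.nonneg t), c * B,
      fun t => mul_le_mul_of_nonneg_left (hB t) hcpos.le⟩
  have hne : (ℝ ∙ e) ≠ ⊤ := by
    intro h
    have h3 : finrank ℝ (ℝ ∙ e) = finrank ℝ E := by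
      rw [h, finrank_top]
    have h4 : finrank ℝ (ℝ ∙ e) = 1 := finrank_span_singleton (by
      intro h0
      rw [h0, norm_zero] at he
      exact zero_ne_one he)
    omega
  have hae : ∀ᵐ u ∂sph E, c0 * QQ i (zon e φ) u / ZZ i (zon e φ) =
      zon e (fun t => c * TT (finrank ℝ E) i (C1 (finrank ℝ E) i) (C2 (finrank ℝ E) i) φ t) u := by
    have h0 : ∀ᵐ x ∂sph E, x ∉ ((ℝ ∙ e : Submodule ℝ E) : Set E) := by
      rw [ae_iff]
      simp only [not_not]
      exact sph_facts.null _ hne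
    filter_upwards [h0, sph_facts.norm (E := E)] with u hu hu1
    have h1 := zqq e u φ i hn hi he hu1 (po_ne he hu1 hu) hφ
    have h2 : |⟪e, u⟫| ≤ 1 := by
      have := abs_real_inner_le_norm e u
      rw [he, hu1, mul_one] at this
      exact this
    show _ = c * TT (finrank ℝ E) i (C1 (finrank ℝ E) i) (C2 (finrank ℝ E) i) φ
      (min |⟪e, u⟫| 1)
    rw [h1, min_eq_left h2, tt_abs, hc]
    ring
  have hDg : Dens (zon e (fun t => c * TT (finrank ℝ E) i (C1 (finrank ℝ E) i)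
      (C2 (finrank ℝ E) i) φ t)) := by
    obtain ⟨B, hB⟩ := hP.bdd
    refine ⟨?_, fun x => hP.nonneg _, ⟨B, fun x => hB _⟩, ?_⟩
    · refine hP.meas.comp ?_
      have : Measurable fun x : E => min |⟪e, x⟫| 1 := by fun_prop
      exact this
    · rw [← integral_congr_ae hae]
      exact hD'.int
  refine ⟨hZ, hP, hDg, ?_⟩
  intro ψ hψ
  have h1 : ∫ x, ψ x * zon e (fun t => c * TT (finrank ℝ E) i (C1 (finrank ℝ E) i)
      (C2 (finrank ℝ E) i) φ t) x ∂sph E =
      ∫ x, ψ x * (c0 * QQ i (zon e φ) x / ZZ i (zon e φ)) ∂sph E := by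
    refine integral_congr_ae ?_
    filter_upwards [hae] with x hx
    rw [hx]
  rw [h1]
  exact hS' ψ hψ

end Pool.Agent.REV.H19
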